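import Pool.Agent.P.MP_833722_gt.Main

set_option autoImplicit false

namespace Pool.Agent.Results.MP_833722_gt.Bridge

open LaurentPolynomial Pool.Agent.P.MP_833722_gt

/-- Links of bounded bridge number have finitely many Jones polynomials of bounded span up to
powers of the variable; knots have finitely many outright. -/
theorem result (b n : ℕ) : ∃ F : Set ℤ[T;T⁻¹], F.Finite ∧
    ∀ D : List Pc, Valid [] D → cups D ≤ b → SpanLe (jones D) n →
      ∃ k : ℤ, ∃ f ∈ F, jones D = T k * f ∧ (comps [] D = 1 → k = 0) := by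
  obtain ⟨K, hK⟩ := bridge_bound b n
  obtain ⟨F, h1, h2⟩ := fin_all n K
  exact ⟨F, h1, fun D hD hb hn => h2 D hD hn (hK D hD hb hn)⟩

end Pool.Agent.Results.MP_833722_gt.Bridge
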