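import Pool.Agent.P.MP_833722_gt.Pos.Fin

set_option autoImplicit false

namespace Pool.Agent.Results.MP_833722_gt.PositiveBraids

open LaurentPolynomial Pool.Agent.P.MP_833722_gt

/-- closure of the braid on `b` strands with word `w`, all crossings of the same sign `s` -/
def closure (b : ℕ) (w : List ℕ) (s : Bool) : List Pc :=
  (List.range b).map (Pc.cup · true) ++ w.map (Pc.cr · s) ++ (List.range b).reverse.map Pc.cap

/-- Closed positive braids and closed negative braids, with any number of strands, have finitely
many Jones polynomials of bounded span up to powers of the variable; knots have finitely many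
outright. -/
theorem result (n : ℕ) : ∃ F : Set ℤ[T;T⁻¹], F.Finite ∧
    ∀ (b : ℕ) (w : List ℕ) (s : Bool), 0 < b → (∀ i ∈ w, i + 2 ≤ b) →
      SpanLe (jones (closure b w s)) n →
      ∃ k : ℤ, ∃ f ∈ F, jones (closure b w s) = T k * f ∧ (comps [] (closure b w s) = 1 → k = 0) := by
  obtain ⟨K, hK⟩ := Pos.main n
  obtain ⟨F, h1, h2⟩ := fin_all n K
  refine ⟨F, h1, fun b w s hb hw hn => ?_⟩
  obtain ⟨hV, h⟩ := hK b w s _ hb hw rfl
  exact h2 _ hV hn (h hn)

end Pool.Agent.Results.MP_833722_gt.PositiveBraids
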