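import Pool.Agent.P.MP_833722_gt.Main

set_option autoImplicit false

namespace Pool.Agent.Results.MP_833722_gt.SmallSpan

open LaurentPolynomial Pool.Agent.P.MP_833722_gt

/-- Jones polynomials of bounded span whose coefficients are bounded outside a window of `6`
consecutive powers of `t` (`7` for knots and for links of nonzero determinant): finitely many up
to powers of the variable, and finitely many outright for knots. -/
theorem result (n B : ℕ) : ∃ F : Set ℤ[T;T⁻¹], F.Finite ∧
    ∀ D : List Pc, Valid [] D → SpanLe (jones D) n → ∀ m : ℤ,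
      ((∀ i, i < m ∨ m + 20 < i → |(jones D).coeff i| ≤ B) ∨
        (comps [] D = 1 ∨ ∃ a : ℂˣ, (a : ℂ) ^ 4 = -1 ∧
            LaurentPolynomial.eval₂ (Int.castRingHom ℂ) a (jones D) ≠ 0) ∧
          ∀ i, i < m ∨ m + 24 < i → |(jones D).coeff i| ≤ B) →
      ∃ k : ℤ, ∃ f ∈ F, jones D = T k * f ∧ (comps [] D = 1 → k = 0) := by
  obtain ⟨K, hK⟩ := window_bound n B
  obtain ⟨F, h1, h2⟩ := fin_all n K
  exact ⟨F, h1, fun D hD hn m hm => h2 D hD hn (hK D hD hn m hm)⟩

end Pool.Agent.Results.MP_833722_gt.SmallSpan
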